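import Mathlib

/-!
# MP_ca4252_co: slope of the longest monochromatic progressions in the Fibonacci word

For every difference `d ≥ 1` the longest monochromatic arithmetic progression of difference `d` in
the Fibonacci word has length `A(d)` with `(A(d) - 1) / d < √5 / τ`.

With `β = 1 / τ`, the letter at position `n` is `0` iff the fractional part of `(n + 1) β` is at
least `1 - β`. So a progression is a rotation by `D = d β - m`, `m` the nearest integer. If
`|D| ≤ 1 - β`, the rotation cannot jump over the other interval, so `K |D| < β` for a progression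
with `K + 1` terms; the norm form gives `|D| (d τ + m) ≥ 1`, and `√5 / τ = 2 - β` together with
integrality finishes the proof. If `|D| > 1 - β` one looks at every second term.
-/

set_option autoImplicit false

namespace Pool.Agent.Results.MP_ca4252_co.SlopeBound

/-- The images of the letters under `0 ↦ 01`, `1 ↦ 0`. -/
def σ (a : ℕ) : List ℕ := if a = 0 then [0, 1] else [0]

/-- The substitution `0 ↦ 01`, `1 ↦ 0`. -/
def subst (w : List ℕ) : List ℕ := w.flatMap σ

/-- The letter `f_n` of the Fibonacci word: the letter with index `n` of `subst^n (0)`. -/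
def f (n : ℕ) : ℕ := (subst^[n] [0]).getD n 0

/-- The lengths of the monochromatic progressions of difference `d`. -/
def Lengths (d : ℕ) : Set ℕ := {k | ∃ i, ∀ j < k, f (i + j * d) = f i}

/-- The largest length of a monochromatic progression of difference `d`. -/
noncomputable def A (d : ℕ) : ℕ := sSup (Lengths d)

/-- `1 / τ`. -/
noncomputable def β : ℝ := (√5 - 1) / 2

theorem β_sq : β * β = 1 - β := by
  have h : √5 * √5 = 5 := Real.mul_self_sqrt (by norm_num)
  unfold β
  nlinarith

theorem β_lb : 0.618 < β := by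
  have : (2.236 : ℝ) < √5 := by
    rw [Real.lt_sqrt (by norm_num)]
    norm_num
  unfold β
  linarith

theorem β_ub : β < 0.61804 := by
  have : √5 < (2.23608 : ℝ) := by
    rw [Real.sqrt_lt' (by norm_num)]
    norm_num
  unfold β
  linarith

theorem β_irr : Irrational β := by
  have h : Irrational (√5) := by
    have := Nat.Prime.irrational_sqrt (p := 5) (by norm_num)
    simpa using this
  have : β = (√5 - 1) / 2 := rfl
  rw [this]
  have h1 : Irrational (√5 - 1) := by
    simpa using h.sub_intCast 1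
  simpa using h1.div_natCast (m := 2) (by norm_num)

theorem β_ne {m : ℕ} (hm : 1 ≤ m) (q : ℤ) : (m : ℝ) * β ≠ q := by
  intro h
  refine β_irr ⟨(q : ℚ) / m, ?_⟩
  push_cast
  rw [← h]
  field_simp

/-- The coding of the rotation. -/
noncomputable def g (n : ℕ) : ℕ := if 1 - β ≤ Int.fract (((n : ℝ) + 1) * β) then 0 else 1

theorem fract_of {x : ℝ} {q : ℤ} {t : ℝ} (h : x = q + t) (h0 : 0 ≤ t) (h1 : t < 1) :
    Int.fract x = t := by
  rw [h, Int.fract_intCast_add, Int.fract_eq_self.2 ⟨h0, h1⟩]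

theorem σG (n : ℕ) : ((List.range n).map g).flatMap σ =
    (List.range (n + ⌊((n : ℝ) + 1) * β⌋₊)).map g := by
  have b1 := β_lb
  have b2 := β_ub
  have b3 := β_sq
  induction n with
  | zero =>
    have : ⌊(((0 : ℕ) : ℝ) + 1) * β⌋₊ = 0 := by
      rw [Nat.floor_eq_zero]
      push_cast
      linarith
    rw [this]
    simp
  | succ n ih =>
    obtain ⟨q, hq⟩ : ∃ q, q = ⌊((n : ℝ) + 1) * β⌋₊ := ⟨_, rfl⟩
    obtain ⟨θ, hθ⟩ : ∃ θ, θ = ((n : ℝ) + 1) * β - q := ⟨_, rfl⟩
    have hpos : 0 ≤ ((n : ℝ) + 1) * β := by positivity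
    have hq' := (Nat.floor_eq_iff hpos).1 hq.symm
    have hθ0 : 0 < θ := by
      rcases lt_or_eq_of_le (sub_nonneg.2 hq'.1) with h | h
      · rw [hθ]; exact h
      · exfalso
        refine β_ne (m := n + 1) (by omega) q ?_
        push_cast
        linarith
    have hθ1 : θ < 1 := by rw [hθ]; linarith [hq'.2]
    have hfr : Int.fract (((n : ℝ) + 1) * β) = θ :=
      fract_of (q := q) (by push_cast; linarith) hθ0.le hθ1
    -- the letter at `N = n + q`
    have hM : ((n : ℝ) + q + 1) * β = (n + 1) - θ * β := by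
      have : (q : ℝ) = ((n : ℝ) + 1) * β - θ := by linarith
      rw [this]
      linear_combination ((n : ℝ) + 1) * b3
    have hN : g (n + q) = 0 := by
      unfold g
      rw [if_pos]
      rw [fract_of (q := n) (t := 1 - θ * β)]
      · nlinarith
      · push_cast
        rw [hM]
        ring
      · nlinarith
      · nlinarith
    have hN1 : g (n + q + 1) = if 1 - β ≤ β * (1 - θ) then 0 else 1 := by
      unfold g
      rw [fract_of (q := n + 1) (t := β * (1 - θ))]
      · push_cast
        linear_combination hM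
      · nlinarith
      · nlinarith
    rw [List.range_succ, List.map_append, List.flatMap_append, ih, ← hq]
    simp only [List.map_cons, List.map_nil, List.flatMap_cons, List.flatMap_nil, List.append_nil]
    by_cases hn : 1 - β ≤ θ
    · have hgn : g n = 0 := by
        unfold g
        rw [hfr, if_pos hn]
      have hne : 1 - β ≠ θ := by
        intro h
        refine β_ne (m := n + 2) (by omega) (q + 1) ?_
        push_cast
        linarith
      have hlt : 1 - β < θ := lt_of_le_of_ne hn hne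
      have h2 : g (n + q + 1) = 1 := by
        rw [hN1, if_neg]
        rw [not_le]
        nlinarith
      have h3 : ⌊(((n + 1 : ℕ) : ℝ) + 1) * β⌋₊ = q + 1 := by
        rw [Nat.floor_eq_iff (by positivity)]
        push_cast
        constructor <;> linarith
      rw [h3, show n + 1 + (q + 1) = n + q + 1 + 1 by ring, List.range_succ, List.range_succ]
      simp [hgn, h2, hN, σ]
    · have hgn : g n = 1 := by
        unfold g
        rw [hfr, if_neg hn]
      have h3 : ⌊(((n + 1 : ℕ) : ℝ) + 1) * β⌋₊ = q := by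
        rw [Nat.floor_eq_iff (by positivity)]
        push_cast
        rw [not_le] at hn
        constructor <;> linarith
      rw [h3, show n + 1 + q = n + q + 1 by ring, List.range_succ]
      simp [hgn, hN, σ]

theorem iter (k : ℕ) : ∃ l, k + 1 ≤ l ∧ subst^[k] [0] = (List.range l).map g := by
  have b1 := β_lb
  have b2 := β_ub
  induction k with
  | zero =>
    refine ⟨1, le_rfl, ?_⟩
    have : g 0 = 0 := by
      unfold g
      rw [if_pos]
      rw [fract_of (q := 0) (t := β)] <;> norm_num <;> linarith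
    simp [this]
  | succ k ih =>
    obtain ⟨l, hl, h⟩ := ih
    refine ⟨l + ⌊((l : ℝ) + 1) * β⌋₊, ?_, ?_⟩
    · have : 1 ≤ ⌊((l : ℝ) + 1) * β⌋₊ := by
        rw [Nat.one_le_floor_iff]
        have : (1 : ℝ) ≤ l := by exact_mod_cast (by omega : 1 ≤ l)
        nlinarith
      omega
    · rw [Function.iterate_succ_apply', h, subst, σG]

theorem f_eq (n : ℕ) : f n = g n := by
  obtain ⟨l, hl, h⟩ := iter n
  rw [f, h, List.getD_eq_getElem _ _ (by simp; omega)]
  simp

theorem f_zero_iff (n : ℕ) : f n = 0 ↔ 1 - β ≤ Int.fract (((n : ℝ) + 1) * β) := by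
  rw [f_eq, g]
  split_ifs with h
  · simp [h]
  · simp [h]

/-! ### The rotation -/

theorem trap1 {D u : ℝ} {K : ℕ} (hD : 0 < D) (hD1 : D ≤ 1 - β)
    (h : ∀ j ≤ K, 1 - β ≤ Int.fract (u + j * D)) : K * D < β := by
  have key : ∀ j ≤ K, ⌊u + j * D⌋ = ⌊u⌋ := by
    intro j
    induction j with
    | zero => intro _; simp
    | succ j ih =>
      intro hj
      have h0 := ih (by omega)
      have h1 := Int.floor_add_fract (u + j * D)
      have h2 := Int.fract_lt_one (u + j * D)
      have h3 := Int.fract_nonneg (u + j * D)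
      have h4 := Int.floor_add_fract (u + ((j + 1 : ℕ) : ℝ) * D)
      have h5 := h (j + 1) hj
      have h6 := Int.fract_lt_one (u + ((j + 1 : ℕ) : ℝ) * D)
      rw [h0] at h1
      have e : u + ((j + 1 : ℕ) : ℝ) * D = u + j * D + D := by push_cast; ring
      have h7 : (⌊u + ((j + 1 : ℕ) : ℝ) * D⌋ : ℝ) < ⌊u⌋ + 1 := by linarith
      have h8 : (⌊u⌋ : ℝ) < ⌊u + ((j + 1 : ℕ) : ℝ) * D⌋ + 1 := by linarith
      have h9 : ⌊u + ((j + 1 : ℕ) : ℝ) * D⌋ < ⌊u⌋ + 1 := by exact_mod_cast h7
      have h10 : ⌊u⌋ < ⌊u + ((j + 1 : ℕ) : ℝ) * D⌋ + 1 := by exact_mod_cast h8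
      omega
  have h1 := Int.floor_add_fract (u + K * D)
  have h2 := Int.fract_lt_one (u + K * D)
  have h3 := Int.floor_add_fract u
  have h4 := h 0 (Nat.zero_le _)
  rw [key K le_rfl] at h1
  simp only [Nat.cast_zero, zero_mul, add_zero] at h4
  linarith

theorem trap3 {D u : ℝ} {K : ℕ} (hD : 0 < D) (hD1 : D ≤ 1 / 2)
    (h : ∀ j ≤ K, Int.fract (u + j * D) < 1 - β) : K * D < 1 - β := by
  have b1 := β_lb
  have key : ∀ j ≤ K, ⌊u + j * D⌋ = ⌊u⌋ := by
    intro j
    induction j with
    | zero => intro _; simp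
    | succ j ih =>
      intro hj
      have h0 := ih (by omega)
      have h1 := Int.floor_add_fract (u + j * D)
      have h2 := h j (by omega)
      have h3 := Int.fract_nonneg (u + j * D)
      have h4 := Int.floor_add_fract (u + ((j + 1 : ℕ) : ℝ) * D)
      have h5 := Int.fract_nonneg (u + ((j + 1 : ℕ) : ℝ) * D)
      have h6 := Int.fract_lt_one (u + ((j + 1 : ℕ) : ℝ) * D)
      rw [h0] at h1
      have e : u + ((j + 1 : ℕ) : ℝ) * D = u + j * D + D := by push_cast; ring
      have h7 : (⌊u + ((j + 1 : ℕ) : ℝ) * D⌋ : ℝ) < ⌊u⌋ + 1 := by linarith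
      have h8 : (⌊u⌋ : ℝ) < ⌊u + ((j + 1 : ℕ) : ℝ) * D⌋ + 1 := by linarith
      have h9 : ⌊u + ((j + 1 : ℕ) : ℝ) * D⌋ < ⌊u⌋ + 1 := by exact_mod_cast h7
      have h10 : ⌊u⌋ < ⌊u + ((j + 1 : ℕ) : ℝ) * D⌋ + 1 := by exact_mod_cast h8
      omega
  have h1 := Int.floor_add_fract (u + K * D)
  have h2 := h K le_rfl
  have h3 := Int.floor_add_fract u
  have h4 := Int.fract_nonneg u
  rw [key K le_rfl] at h1
  linarith

theorem trap2 {D u : ℝ} {K : ℕ} (hD : 1 - β < D) (hD1 : D ≤ 1 / 2)
    (h : ∀ j ≤ K, 1 - β ≤ Int.fract (u + j * D)) :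
    ((K : ℝ) - 2) * (1 - 2 * D) < 2 * β - 1 ∧
      (Even K → ((K : ℝ) - 1) * (1 - 2 * D) < 2 * β - 1) := by
  have b1 := β_lb
  have b2 := β_ub
  have hlow : ∀ j ≤ K, (⌊u + j * D⌋ : ℝ) + (1 - β) ≤ u + j * D := by
    intro j hj
    have := Int.floor_add_fract (u + j * D)
    linarith [h j hj]
  have hup : ∀ j : ℕ, u + j * D < (⌊u + j * D⌋ : ℝ) + 1 := fun j => Int.lt_floor_add_one _
  have two : ∀ j, j + 2 ≤ K → ⌊u + ((j + 2 : ℕ) : ℝ) * D⌋ = ⌊u + j * D⌋ + 1 := by
    intro j hj
    have h1 := hlow j (by omega)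
    have h2 := hup j
    have h3 := hlow (j + 2) hj
    have h4 := hup (j + 2)
    have e : u + ((j + 2 : ℕ) : ℝ) * D = u + j * D + 2 * D := by push_cast; ring
    have h5 : (⌊u + ((j + 2 : ℕ) : ℝ) * D⌋ : ℝ) < ⌊u + j * D⌋ + 2 := by linarith
    have h6 : (⌊u + j * D⌋ : ℝ) < ⌊u + ((j + 2 : ℕ) : ℝ) * D⌋ := by linarith
    have h7 : ⌊u + ((j + 2 : ℕ) : ℝ) * D⌋ < ⌊u + j * D⌋ + 2 := by exact_mod_cast h5
    have h8 : ⌊u + j * D⌋ < ⌊u + ((j + 2 : ℕ) : ℝ) * D⌋ := by exact_mod_cast h6
    omega
  have ev : ∀ i a, a + 2 * i ≤ K → ⌊u + ((a + 2 * i : ℕ) : ℝ) * D⌋ = ⌊u + (a : ℝ) * D⌋ + i := by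
    intro i a
    induction i with
    | zero => intro _; simp
    | succ i ih =>
      intro hi
      have := two (a + 2 * i) (by omega)
      rw [show a + 2 * (i + 1) = a + 2 * i + 2 by ring, this, ih (by omega)]
      push_cast
      ring
  rcases Nat.eq_zero_or_pos K with rfl | hK
  · constructor
    · push_cast
      nlinarith
    · intro _
      push_cast
      nlinarith
  have e1 : u + ((1 : ℕ) : ℝ) * D = u + ((0 : ℕ) : ℝ) * D + D := by push_cast; ring
  have l0 := hlow 0 (by omega)
  have u0 := hup 0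
  have l1 := hlow 1 hK
  have u1 := hup 1
  have c1 : ⌊u + ((1 : ℕ) : ℝ) * D⌋ = ⌊u + ((0 : ℕ) : ℝ) * D⌋ ∨
      ⌊u + ((1 : ℕ) : ℝ) * D⌋ = ⌊u + ((0 : ℕ) : ℝ) * D⌋ + 1 := by
    have h5 : (⌊u + ((1 : ℕ) : ℝ) * D⌋ : ℝ) < ⌊u + ((0 : ℕ) : ℝ) * D⌋ + 2 := by linarith
    have h6 : (⌊u + ((0 : ℕ) : ℝ) * D⌋ : ℝ) < ⌊u + ((1 : ℕ) : ℝ) * D⌋ + 1 := by linarith
    have h7 : ⌊u + ((1 : ℕ) : ℝ) * D⌋ < ⌊u + ((0 : ℕ) : ℝ) * D⌋ + 2 := by exact_mod_cast h5
    have h8 : ⌊u + ((0 : ℕ) : ℝ) * D⌋ < ⌊u + ((1 : ℕ) : ℝ) * D⌋ + 1 := by exact_mod_cast h6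
    omega
  have hε : 0 ≤ 1 - 2 * D := by linarith
  rcases c1 with c1 | c1
  · rw [c1] at u1
    obtain ⟨i, hi⟩ : ∃ i, K = 2 * i ∨ K = 2 * i + 1 := ⟨K / 2, by omega⟩
    have h1 := ev i 0 (by omega)
    have h2 := hlow (0 + 2 * i) (by omega)
    rw [h1] at h2
    have e2 : u + ((0 + 2 * i : ℕ) : ℝ) * D = u + ((0 : ℕ) : ℝ) * D + 2 * i * D := by
      push_cast; ring
    have h3 : ((⌊u + ((0 : ℕ) : ℝ) * D⌋ + i : ℤ) : ℝ) = ⌊u + ((0 : ℕ) : ℝ) * D⌋ + i := by
      push_cast; ring
    rw [h3] at h2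
    have h4 : (2 * (i : ℝ) - 1) * (1 - 2 * D) < 2 * β - 1 := by nlinarith
    rcases hi with rfl | rfl
    · constructor
      · push_cast
        nlinarith
      · intro _
        push_cast
        exact h4
    · constructor
      · push_cast
        nlinarith
      · intro hev
        exact absurd hev (by simp)
  · rw [c1] at l1
    obtain ⟨i, hi⟩ : ∃ i, K = 2 * i + 1 ∨ K = 2 * i + 2 := ⟨(K - 1) / 2, by omega⟩
    have h1 := ev i 1 (by omega)
    have h2 := hlow (1 + 2 * i) (by omega)
    rw [h1, c1] at h2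
    have e2 : u + ((1 + 2 * i : ℕ) : ℝ) * D = u + ((0 : ℕ) : ℝ) * D + (2 * i + 1) * D := by
      push_cast; ring
    have h3 : ((⌊u + ((0 : ℕ) : ℝ) * D⌋ + 1 + i : ℤ) : ℝ) =
        ⌊u + ((0 : ℕ) : ℝ) * D⌋ + 1 + i := by
      push_cast; ring
    rw [h3] at h2
    have h4 : (2 * (i : ℝ) + 1) * (1 - 2 * D) < 2 * β - 1 := by nlinarith
    rcases hi with rfl | rfl
    · constructor
      · push_cast
        nlinarith
      · intro hev
        exact absurd hev (by simp)
    · constructor
      · push_cast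
        nlinarith
      · intro _
        push_cast
        nlinarith

/-- The norm form. -/
theorem norm_bound {d : ℕ} {m : ℤ} (hd : 1 ≤ d) (hm : 0 ≤ m) :
    1 ≤ |(d : ℝ) * β - m| * (d * (1 + β) + m) := by
  have b1 := β_lb
  have b3 := β_sq
  have hd' : (1 : ℝ) ≤ d := by exact_mod_cast hd
  have hm' : (0 : ℝ) ≤ m := by exact_mod_cast hm
  have hpos : 0 < (d : ℝ) * (1 + β) + m := by nlinarith
  have e : |(d : ℝ) * β - m| * (d * (1 + β) + m) = |(((d : ℤ) ^ 2 - m * d - m ^ 2 : ℤ) : ℝ)| := by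
    rw [← abs_of_pos hpos, ← abs_mul]
    congr 1
    push_cast
    linear_combination (d : ℝ) ^ 2 * b3
  rw [e]
  have hne : ((d : ℤ) ^ 2 - m * d - m ^ 2 : ℤ) ≠ 0 := by
    intro h0
    rw [h0] at e
    simp only [Int.cast_zero, abs_zero] at e
    rcases mul_eq_zero.1 e with h | h
    · rw [abs_eq_zero, sub_eq_zero] at h
      exact β_ne hd m h
    · linarith
  have : (1 : ℤ) ≤ |(d : ℤ) ^ 2 - m * d - m ^ 2| := Int.one_le_abs hne
  exact_mod_cast this

theorem small_pos (d : ℕ) (m : ℤ) (hd : 1 ≤ d) (hd7 : d < 7) (hm0 : 0 ≤ m) (hm5 : m < 5)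
    (h1 : 1 - β < d * β - m) (h2 : (d : ℝ) * β - m ≤ 1 / 2) : d = 4 ∧ m = 2 := by
  have b1 := β_lb
  have b2 := β_ub
  interval_cases d <;> interval_cases m <;> first
    | exact ⟨rfl, rfl⟩
    | (exfalso; push_cast at h1 h2; linarith)

theorem small_neg (d : ℕ) (m : ℤ) (hd : 1 ≤ d) (hd7 : d < 7) (hm0 : 0 ≤ m) (hm5 : m < 5)
    (h1 : 1 - β < m - d * β) (h2 : (m : ℝ) - d * β ≤ 1 / 2) : False := by
  have b1 := β_lb
  have b2 := β_ub
  interval_cases d <;> interval_cases m <;> (push_cast at h1 h2; linarith)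

/-- The main bound, for a progression with `K + 1` terms. -/
theorem main_bound {d i K : ℕ} (hd : 1 ≤ d) (h : ∀ j ≤ K, f (i + j * d) = f i) :
    (K : ℝ) < d * (2 - β) := by
  have b1 := β_lb
  have b2 := β_ub
  have b3 := β_sq
  have hd' : (1 : ℝ) ≤ d := by exact_mod_cast hd
  obtain ⟨m, hm⟩ : ∃ m, m = round ((d : ℝ) * β) := ⟨_, rfl⟩
  obtain ⟨D, hD⟩ : ∃ D, D = (d : ℝ) * β - m := ⟨_, rfl⟩
  have hDabs : |D| ≤ 1 / 2 := by
    rw [hD, hm]
    exact abs_sub_round _
  have hmD := abs_le.1 hDabs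
  have hm0 : 0 ≤ m := by
    have : (-1 : ℝ) < m := by nlinarith
    have : (-1 : ℤ) < m := by exact_mod_cast this
    omega
  have hD0 : D ≠ 0 := by
    rw [hD, sub_ne_zero]
    exact β_ne hd m
  -- fractional parts along the progression
  have hfr : ∀ j : ℕ, Int.fract ((((i + j * d : ℕ) : ℝ) + 1) * β) =
      Int.fract (((i : ℝ) + 1) * β + j * D) := by
    intro j
    rw [show (((i + j * d : ℕ) : ℝ) + 1) * β = ((i : ℝ) + 1) * β + j * D + ((j * m : ℤ) : ℝ) by
      rw [hD]; push_cast; ring, Int.fract_add_intCast]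
  -- the common facts for `|D|`, using the reversed progression if `D < 0`
  obtain ⟨u, hu⟩ : ∃ u : ℝ, (∀ j ≤ K, 1 - β ≤ Int.fract (u + j * |D|)) ∨
      (∀ j ≤ K, Int.fract (u + j * |D|) < 1 - β) := by
    have hor : (∀ j ≤ K, 1 - β ≤ Int.fract (((i : ℝ) + 1) * β + j * D)) ∨
        (∀ j ≤ K, Int.fract (((i : ℝ) + 1) * β + j * D) < 1 - β) := by
      by_cases h0 : f i = 0
      · left
        intro j hj
        rw [← hfr, ← f_zero_iff, h j hj, h0]
      · right
        intro j hj
        rw [← hfr, ← not_le, ← f_zero_iff, h j hj]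
        exact h0
    rcases lt_or_gt_of_ne hD0 with hneg | hpos
    · refine ⟨((i : ℝ) + 1) * β + K * D, ?_⟩
      have e : ∀ j ≤ K, ((i : ℝ) + 1) * β + K * D + j * |D| =
          ((i : ℝ) + 1) * β + ((K - j : ℕ) : ℝ) * D := by
        intro j hj
        rw [abs_of_neg hneg, Nat.cast_sub hj]
        ring
      rcases hor with h1 | h1
      · left
        intro j hj
        rw [e j hj]
        exact h1 _ (by omega)
      · right
        intro j hj
        rw [e j hj]
        exact h1 _ (by omega)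
    · refine ⟨((i : ℝ) + 1) * β, ?_⟩
      rw [abs_of_pos hpos]
      exact hor
  have hDpos : 0 < |D| := abs_pos.2 hD0
  have hK0 : (0 : ℝ) ≤ K := Nat.cast_nonneg _
  rcases le_or_gt |D| (1 - β) with hcase | hcase
  · -- the rotation cannot jump
    have hKD : K * |D| < β := by
      rcases hu with hu | hu
      · exact trap1 hDpos hcase hu
      · have := trap3 hDpos hDabs hu
        linarith
    have hnorm := norm_bound hd hm0
    rw [← hD] at hnorm
    have hm' : (0 : ℝ) ≤ m := by exact_mod_cast hm0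
    have hE : 0 < (d : ℝ) * (1 + β) + m := by nlinarith
    have hK1 : (K : ℝ) < d + m * β := by
      have h1 : (K : ℝ) ≤ K * |D| * (d * (1 + β) + m) := by nlinarith
      have h2 : K * |D| * (d * (1 + β) + m) < β * (d * (1 + β) + m) :=
        mul_lt_mul_of_pos_right hKD hE
      have h3 : β * (d * (1 + β) + m) = d + m * β := by linear_combination (d : ℝ) * b3
      linarith
    rcases lt_or_gt_of_ne hD0 with hneg | hpos
    · rw [abs_of_neg hneg] at hcase
      have h1 : (K : ℝ) < 2 * d - m + 1 := by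
        have e : d + m * β = 2 * d - m + (-D) * (1 + β) := by
          rw [hD]
          linear_combination (d : ℝ) * b3
        have : (-D) * (1 + β) ≤ (1 - β) * (1 + β) := by nlinarith
        nlinarith
      have h2 : (K : ℤ) < 2 * d - m + 1 := by exact_mod_cast h1
      have h3 : (K : ℤ) ≤ 2 * d - m := by omega
      have h4 : (K : ℝ) ≤ 2 * d - m := by exact_mod_cast h3
      nlinarith
    · have e : d + m * β = d * (2 - β) - D * β := by
        rw [hD]
        linear_combination (d : ℝ) * b3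
      have : 0 < D * β := by nlinarith
      linarith
  · rcases hu with hu | hu
    · obtain ⟨t1, t2⟩ := trap2 hcase hDabs hu
      -- the nearest odd multiple of `1/2`
      obtain ⟨M, hM0, hM⟩ : ∃ M : ℤ, 0 ≤ M ∧ |((2 * d : ℕ) : ℝ) * β - M| = 1 - 2 * |D| := by
        rcases lt_or_gt_of_ne hD0 with hneg | hpos
        · refine ⟨2 * m - 1, ?_, ?_⟩
          · have : (0 : ℝ) < m := by nlinarith
            have : (0 : ℤ) < m := by exact_mod_cast this
            omega
          · rw [abs_of_neg hneg]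
            push_cast
            rw [show 2 * (d : ℝ) * β - (2 * m - 1) = 2 * D + 1 by rw [hD]; ring,
              abs_of_nonneg (by linarith)]
            ring
        · refine ⟨2 * m + 1, by omega, ?_⟩
          rw [abs_of_pos hpos]
          push_cast
          rw [show 2 * (d : ℝ) * β - (2 * m + 1) = -(1 - 2 * D) by rw [hD]; ring, abs_neg,
            abs_of_nonneg (by linarith)]
      have hnorm := norm_bound (d := 2 * d) (m := M) (by omega) hM0
      rw [hM] at hnorm
      have hMup : (M : ℝ) ≤ 2 * d * β + (1 - 2 * |D|) := by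
        have := (abs_le.1 hM.le).1
        push_cast at this
        linarith
      have hM' : (0 : ℝ) ≤ M := by exact_mod_cast hM0
      push_cast at hnorm
      have hE : 0 < 2 * (d : ℝ) * (1 + β) + M := by nlinarith
      have hεpos : 0 < 1 - 2 * |D| := by
        by_contra hcon
        nlinarith
      rcases Nat.lt_or_ge d 7 with hd7 | hd7
      · -- only `d = 4` is possible
        have hm4 : m < 5 := by
          have h6 : (d : ℝ) ≤ 6 := by exact_mod_cast (by omega : d ≤ 6)
          have : (m : ℝ) < 5 := by nlinarith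
          exact_mod_cast this
        have h4 : d = 4 ∧ m = 2 ∧ 0 < D := by
          rcases lt_or_gt_of_ne hD0 with hneg | hpos
          · exfalso
            rw [abs_of_neg hneg] at hcase hDabs
            exact small_neg d m hd hd7 hm0 hm4 (by linarith) (by linarith)
          · rw [abs_of_pos hpos] at hcase hDabs
            obtain ⟨h4, h5⟩ := small_pos d m hd hd7 hm0 hm4 (by linarith) (by linarith)
            exact ⟨h4, h5, hpos⟩
        obtain ⟨rfl, rfl, hpos⟩ := h4
        rw [abs_of_pos hpos, hD] at t1 t2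
        push_cast at t1 t2 ⊢
        have hK5 : K ≤ 5 := by
          by_contra hcon
          rcases Nat.even_or_odd K with hev | hod
          · have h5 : (6 : ℝ) ≤ K := by exact_mod_cast (by omega : 6 ≤ K)
            have := t2 hev
            nlinarith
          · have h5 : (7 : ℝ) ≤ K := by
              obtain ⟨a, ha⟩ := hod
              exact_mod_cast (by omega : 7 ≤ K)
            nlinarith
        have : (K : ℝ) ≤ 5 := by exact_mod_cast hK5
        linarith
      · have hd7' : (7 : ℝ) ≤ d := by exact_mod_cast hd7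
        have h1 : (K : ℝ) - 2 < (2 * β - 1) * (2 * d * (1 + β) + M) := by
          rcases le_or_gt ((K : ℝ) - 2) 0 with h0 | h0
          · have : 0 < (2 * β - 1) * (2 * d * (1 + β) + M) := by
              apply mul_pos (by linarith) hE
            linarith
          · have h2 : (K : ℝ) - 2 ≤ ((K : ℝ) - 2) * (1 - 2 * |D|) * (2 * d * (1 + β) + M) := by
              nlinarith
            have h3 : ((K : ℝ) - 2) * (1 - 2 * |D|) * (2 * d * (1 + β) + M) <
                (2 * β - 1) * (2 * d * (1 + β) + M) := mul_lt_mul_of_pos_right t1 hE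
            linarith
        have h2 : (2 * β - 1) * (2 * d * (1 + β) + M) ≤
            (2 * β - 1) * (2 * d * (1 + β) + (2 * d * β + (2 * β - 1))) := by
          apply mul_le_mul_of_nonneg_left _ (by linarith)
          linarith
        have h3 : (2 * β - 1) * (2 * d * (1 + β) + (2 * d * β + (2 * β - 1))) =
            2 * d * (3 - 4 * β) + (5 - 8 * β) := by
          linear_combination (8 * (d : ℝ) + 4) * b3
        nlinarith
    · have h1 := trap3 hDpos hDabs hu
      have h2 : (K : ℝ) < 1 := by nlinarith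
      have h3 : K < 1 := by exact_mod_cast h2
      obtain rfl : K = 0 := by omega
      push_cast
      nlinarith

theorem slope : √5 / Real.goldenRatio = 2 - β := by
  have h : √5 * √5 = 5 := Real.mul_self_sqrt (by norm_num)
  have hpos : 0 < Real.goldenRatio := Real.goldenRatio_pos
  rw [div_eq_iff hpos.ne']
  unfold β Real.goldenRatio
  nlinarith

/-- For every `d ≥ 1` the number `A d` is the largest length of a monochromatic progression of
difference `d` in the Fibonacci word, and `(A d - 1) / d < √5 / τ`. -/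
theorem result (d : ℕ) (hd : 1 ≤ d) :
    IsGreatest (Lengths d) (A d) ∧ ((A d : ℝ) - 1) / d < √5 / Real.goldenRatio := by
  have b1 := β_lb
  have hd' : (0 : ℝ) < d := by exact_mod_cast hd
  have hb : ∀ k ∈ Lengths d, k ≤ 2 * d := by
    rintro k ⟨i, hi⟩
    rcases Nat.eq_zero_or_pos k with rfl | hk
    · omega
    · have h1 := main_bound (K := k - 1) hd fun j hj => hi j (by omega)
      have h2 : ((k - 1 : ℕ) : ℝ) < ((2 * d : ℕ) : ℝ) := by
        push_cast
        nlinarith
      have : k - 1 < 2 * d := by exact_mod_cast h2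
      omega
  have hne : (Lengths d).Nonempty := ⟨0, 0, by simp⟩
  have hmem : A d ∈ Lengths d := Nat.sSup_mem hne ⟨2 * d, hb⟩
  refine ⟨⟨hmem, fun k hk => le_csSup ⟨2 * d, hb⟩ hk⟩, ?_⟩
  have h1 : 1 ∈ Lengths d := ⟨0, by simp⟩
  have h2 : 1 ≤ A d := le_csSup ⟨2 * d, hb⟩ h1
  obtain ⟨i, hi⟩ := hmem
  have h3 := main_bound (K := A d - 1) hd fun j hj => hi j (by omega)
  rw [Nat.cast_sub h2] at h3
  rw [slope, div_lt_iff₀ hd']
  push_cast at h3
  linarith

end Pool.Agent.Results.MP_ca4252_co.SlopeBound
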